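import Pool.Agent.Q92.DS.NF
import Pool.Agent.Q92.DS.RedG

/-!
# Galois representations into L-groups with finite image, from infinitely many residue fields

Let `K` be a number field, `G` a reductive group over `K`, `Π` an automorphic representation of `G` and
suppose the Satake classes `s_v`, `v ∉ Σ`, are defined over the integers of a number field `E`. Realize the
L-group by a faithful representation in `GL_n`: the coset of `g ∈ Γ_K` in (a finite form of) the L-group is
the closed subset of `GL_n` given by a set of polynomial equations with coefficients in the integers of `E`;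
the class `s_v` is given by further such equations (the values at `s_v` of the functions on the coset of
Frobenius which are invariant under conjugation), and by its characteristic polynomial.

Assume that few numbers occur as traces of the `s_v` (they lie in a finite set for all `v` outside a set of
upper density `c` with `c n² < 1`; or their conjugates are bounded in mean square). Then the following are
equivalent: for every algebraically closed field `Ω` and every embedding `E → Ω` (for instance all embeddings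
into the algebraic closures of all `ℚ_ℓ`) there is an admissible homomorphism to the L-group over `Ω` with
finite image, unramified outside `Σ`, whose Frobenius elements are semisimple and lie in the classes `s_v`
for all `v ∉ Σ`; there are such homomorphisms modulo infinitely many primes `λ` of `E`; there are such
homomorphisms modulo almost all `λ`.
-/

set_option autoImplicit false
set_option linter.all false

namespace Pool.Agent.Results.MP_666dc0_nt.FiniteImageLGroups

open Polynomial Filter NumberField IsDedekindDomain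
open Pool.Agent.W401.Cheb (GK IsFrob IsInert)

/-- The matrix `M` over `k` satisfies the polynomial equations `Q` (polynomials in the entries, with
coefficients in the integers of `E`, which are mapped to `k` by `φ`). -/
def Solves {E : Type} [Field E] [NumberField E] {k : Type*} [CommRing k] {n : ℕ} (φ : 𝓞 E →+* k)
    (Q : Set (MvPolynomial (Fin n × Fin n) (𝓞 E))) (M : Matrix (Fin n) (Fin n) k) : Prop :=
  ∀ q ∈ Q, MvPolynomial.eval₂ φ (fun ab => M ab.1 ab.2) q = 0

/-- An L-group, realized in `GL_n` by equations over the integers of `E`, and Satake classes. -/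
structure Datum (K E : Type) [Field K] [NumberField K] [Field E] [NumberField E] (n : ℕ) where
  /-- the equations of the coset of `g` in the L-group -/
  LG : GK K → Set (MvPolynomial (Fin n × Fin n) (𝓞 E))
  /-- the bad places `Σ` -/
  bad : Finset (HeightOneSpectrum (𝓞 K))
  /-- the equations of the Satake class `s_v` -/
  sat : HeightOneSpectrum (𝓞 K) → Set (MvPolynomial (Fin n × Fin n) (𝓞 E))
  /-- the characteristic polynomial of `s_v` -/
  P : HeightOneSpectrum (𝓞 K) → (𝓞 E)[X]
  monic : ∀ v, v ∉ bad → (P v).Monic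

variable {K E : Type} [Field K] [NumberField K] [Field E] [NumberField E] {n : ℕ}

/-- `ρ` is a homomorphism to the L-group over `k`, commuting with the projections to the Galois group and
with open kernel, which for all `v ∉ Σ` outside the set `X` is unramified at `v` and maps all Frobenius
elements at `v` into the class `s_v` (up to semisimplification). -/
def IsParameter (D : Datum K E n) {k : Type*} [Field k] (φ : 𝓞 E →+* k)
    (X : Set (HeightOneSpectrum (𝓞 K))) (ρ : GK K →* GL (Fin n) k) : Prop :=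
  IsOpen (ρ.ker : Set (GK K)) ∧
  (∀ g, Solves φ (D.LG g) (ρ g : Matrix (Fin n) (Fin n) k)) ∧
  ∀ v, v ∉ D.bad → v ∉ X → (∀ σ, IsInert v σ → ρ σ = 1) ∧
    ∀ σ, IsFrob v σ → Solves φ (D.sat v) (ρ σ : Matrix (Fin n) (Fin n) k) ∧
      (ρ σ : Matrix (Fin n) (Fin n) k).charpoly = (D.P v).map φ

/-- `ρ` is semisimple: every stable subspace has a stable complement. -/
def IsSemisimple {k : Type*} [Field k] (ρ : GK K →* GL (Fin n) k) : Prop :=
  ∀ W : Submodule k (Fin n → k), (∀ g, ∀ w ∈ W, (ρ g : Matrix (Fin n) (Fin n) k).mulVec w ∈ W) →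
    ∃ W' : Submodule k (Fin n → k), (∀ g, ∀ w ∈ W', (ρ g : Matrix (Fin n) (Fin n) k).mulVec w ∈ W') ∧
      IsCompl W W'

/-- There is a parameter modulo `λ`: over some extension of the residue field of `λ`, a semisimple
representation with values in the L-group which corresponds to the Satake classes at all `v ∉ Σ` prime to
the residue characteristic of `λ`. -/
def HasMod (D : Datum K E n) (l : HeightOneSpectrum (𝓞 E)) : Prop :=
  ∃ (k : Type) (_ : Field k) (φ : 𝓞 E →+* k) (ρ : GK K →* GL (Fin n) k),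
    RingHom.ker φ = l.asIdeal ∧ IsSemisimple ρ ∧
    IsParameter D φ {v | φ ((Ideal.absNorm v.asIdeal : ℕ) : 𝓞 E) = 0} ρ

/-- There is a parameter with finite image over every algebraically closed field `Ω` to which `E` is mapped;
the images of the Frobenius elements are diagonalizable, and it corresponds to the Satake classes at all
`v ∉ Σ`. -/
def HasParameters (D : Datum K E n) : Prop :=
  ∀ (Ω : Type) [Field Ω] [IsAlgClosed Ω] (ι : E →+* Ω), ∃ r : GK K →* GL (Fin n) Ω,
    IsParameter D (ι.comp (algebraMap (𝓞 E) E)) ∅ r ∧ (Set.range r).Finite ∧ IsSemisimple r ∧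
    ∀ σ, ∃ (h : GL (Fin n) Ω) (d : Fin n → Ω), (r σ : Matrix (Fin n) (Fin n) Ω) =
      (h : Matrix (Fin n) (Fin n) Ω) * Matrix.diagonal d * ((h⁻¹ : GL (Fin n) Ω) : Matrix (Fin n) (Fin n) Ω)

/-- The traces of the Satake classes lie in a finite set for all places outside `Σ` and a set of upper
density at most `c`, where `c n ^ 2 < 1`. -/
def FewTraces (D : Datum K E n) : Prop :=
  ∃ (T : Finset (𝓞 E)) (Z : Set (HeightOneSpectrum (𝓞 K))) (c : ℝ), c * n ^ 2 < 1 ∧
    (∀ᶠ N : ℕ in atTop, ({v : HeightOneSpectrum (𝓞 K) | Ideal.absNorm v.asIdeal ≤ N ∧ v ∈ Z}.ncard : ℝ) ≤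
      c * (Nat.primeCounting N : ℝ)) ∧
    ∀ v, v ∉ D.bad → v ∉ Z → (D.P v).coeff (n - 1) ∈ T

/-- All conjugates of the traces of the Satake classes are bounded in mean square. -/
def MeanSquare (D : Datum K E n) : Prop :=
  ∃ C : ℝ, ∀ᶠ N : ℕ in atTop,
    ∑ᶠ (v : HeightOneSpectrum (𝓞 K)) (_ : Ideal.absNorm v.asIdeal ≤ N ∧ v ∉ D.bad),
      ∑ τ : E →+* ℂ, ‖τ ((D.P v).coeff (n - 1))‖ ^ 2 ≤ C * (Nat.primeCounting N : ℝ)

open Pool.Agent.Q92.DS Pool.Agent.Y800 in
/-- **From the mean square to few traces.** -/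
theorem few_of_meanSquare (hn : 0 < n) (D : Datum K E n) (h : MeanSquare D) : FewTraces D := by
  classical
  obtain ⟨C, hC⟩ := h
  set t : HeightOneSpectrum (𝓞 K) → 𝓞 E := fun v => (D.P v).coeff (n - 1) with ht
  set c : ℝ := 1 / (2 * (n : ℝ) ^ 2) with hc
  have hn' : (0 : ℝ) < (n : ℝ) ^ 2 := by positivity
  have hc0 : 0 < c := by positivity
  have hc1 : c * (n : ℝ) ^ 2 < 1 := by
    rw [hc, div_mul_eq_mul_div, div_lt_one (by positivity)]
    linarith
  set B : ℝ := Real.sqrt (max C 0 / c + 1) with hB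
  have hB2 : B ^ 2 = max C 0 / c + 1 := Real.sq_sqrt (by positivity)
  have hfin : {x : 𝓞 E | ∀ τ : E →+* ℂ, ‖τ x‖ ≤ B}.Finite := by
    have h1 := (Embeddings.finite_of_norm_le E ℂ B).preimage
      (f := fun x : 𝓞 E => (x : E)) (RingOfIntegers.coe_injective.injOn)
    refine h1.subset fun x hx => ?_
    exact ⟨x.2, hx⟩
  refine ⟨hfin.toFinset, {v | v ∉ D.bad ∧ ∃ τ : E →+* ℂ, B < ‖τ (t v)‖}, c, hc1, ?_, ?_⟩
  · filter_upwards [hC] with N hN
    have hSf : {v : HeightOneSpectrum (𝓞 K) | Ideal.absNorm v.asIdeal ≤ N ∧ v ∉ D.bad}.Finite := by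
      have := fin_cntK (K := K) {v | v ∉ D.bad} N
      exact this
    set F := hSf.toFinset with hF
    have hsum : ∑ᶠ (v : HeightOneSpectrum (𝓞 K)) (_ : Ideal.absNorm v.asIdeal ≤ N ∧ v ∉ D.bad),
        ∑ τ : E →+* ℂ, ‖τ (t v)‖ ^ 2 = ∑ v ∈ F, ∑ τ : E →+* ℂ, ‖τ (t v)‖ ^ 2 := by
      exact finsum_mem_eq_finite_toFinset_sum (fun v => ∑ τ : E →+* ℂ, ‖τ (t v)‖ ^ 2) hSf
    rw [hsum] at hN
    set F' := F.filter (fun p => ∃ τ : E →+* ℂ, B < ‖τ (t p)‖) with hF'
    have h1 : {v : HeightOneSpectrum (𝓞 K) | Ideal.absNorm v.asIdeal ≤ N ∧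
        v ∉ D.bad ∧ ∃ τ : E →+* ℂ, B < ‖τ (t v)‖} = (F' : Set (HeightOneSpectrum (𝓞 K))) := by
      ext p
      rw [hF', Finset.coe_filter, hF]
      simp only [Set.Finite.mem_toFinset]
      constructor
      · rintro ⟨b, c, d⟩
        exact ⟨⟨b, c⟩, d⟩
      · rintro ⟨⟨b, c⟩, d⟩
        exact ⟨b, c, d⟩
    show (({v : HeightOneSpectrum (𝓞 K) | Ideal.absNorm v.asIdeal ≤ N ∧
        v ∉ D.bad ∧ ∃ τ : E →+* ℂ, B < ‖τ (t v)‖}.ncard : ℕ) : ℝ) ≤ _
    rw [h1, Set.ncard_coe_finset]
    have h2 : (F'.card : ℝ) * B ^ 2 ≤ ∑ p ∈ F, ∑ τ : E →+* ℂ, ‖τ (t p)‖ ^ 2 := by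
      calc (F'.card : ℝ) * B ^ 2 = ∑ p ∈ F', B ^ 2 := by rw [Finset.sum_const, nsmul_eq_mul]
        _ ≤ ∑ p ∈ F', ∑ τ : E →+* ℂ, ‖τ (t p)‖ ^ 2 := by
            refine Finset.sum_le_sum fun p hp => ?_
            obtain ⟨τ, hτ⟩ := (Finset.mem_filter.1 hp).2
            refine le_trans ?_ (Finset.single_le_sum (f := fun τ : E →+* ℂ => ‖τ (t p)‖ ^ 2)
              (fun _ _ => by positivity) (Finset.mem_univ τ))
            exact pow_le_pow_left₀ (Real.sqrt_nonneg _) hτ.le 2
        _ ≤ _ := Finset.sum_le_sum_of_subset_of_nonneg (Finset.filter_subset _ _)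
            (fun _ _ _ => Finset.sum_nonneg fun _ _ => by positivity)
    have h3 : (F'.card : ℝ) * B ^ 2 ≤ max C 0 * (Nat.primeCounting N : ℝ) :=
      (h2.trans hN).trans (mul_le_mul_of_nonneg_right (le_max_left _ _) (Nat.cast_nonneg _))
    have h4 : max C 0 ≤ c * B ^ 2 := by
      rw [hB2, mul_add, mul_div_cancel₀ _ hc0.ne']
      linarith
    have h5 : (F'.card : ℝ) * B ^ 2 ≤ (c * (Nat.primeCounting N : ℝ)) * B ^ 2 := by
      refine h3.trans ?_
      have := mul_le_mul_of_nonneg_right h4 (Nat.cast_nonneg (Nat.primeCounting N) : (0 : ℝ) ≤ _)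
      linarith
    have hBpos : 0 < B ^ 2 := by rw [hB2]; positivity
    exact le_of_mul_le_mul_right h5 hBpos
  · intro v hv hvZ
    rw [Set.Finite.mem_toFinset]
    intro τ
    by_contra hτ
    exact hvZ ⟨hv, τ, not_le.1 hτ⟩

open Pool.Agent.Q92.DS Pool.Agent.Y800 in
/-- **From infinitely many residue fields to all algebraically closed fields.** -/
theorem parameters_of_mod (hn : 0 < n) (D : Datum K E n) (h : FewTraces D)
    (hmod : {l : HeightOneSpectrum (𝓞 E) | HasMod D l}.Infinite) : HasParameters D := by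
  classical
  intro Ω _ _ ι
  obtain ⟨T, Z, c, hc, hZ, hT⟩ := h
  set L : Set (HeightOneSpectrum (𝓞 E)) := {l | HasMod D l} with hL
  have hdata : ∀ l : L, HasMod D l.1 := fun l => l.2
  choose k fld φ ρ h1 h2 h3 using hdata
  letI := fld
  set ψ : 𝓞 E →+* Ω := ι.comp (algebraMap (𝓞 E) E) with hψ
  have hψinj : Function.Injective ψ := ι.injective.comp RingOfIntegers.coe_injective
  haveI : CharZero E := inferInstance
  haveI : CharZero Ω := charZero_of_injective_ringHom ι.injective
  haveI : Infinite L := hmod.to_subtype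
  obtain ⟨hnorm, r, hr1, hr2, hr3, hr4⟩ := of_modK hn D.bad (T.image fun x => -x) Z c hc hZ D.P D.monic
    (fun v hv hvZ => Finset.mem_image_of_mem _ (hT v hv hvZ)) L hmod k φ h1 ρ (fun l => (h3 l).1)
    (fun l => h2 l) (fun l v hv hvl σ hσ => (((h3 l).2.2 v hv hvl).2 σ hσ).2) ψ hψinj
  haveI hfin : Finite (GK K ⧸ r.ker) := Subgroup.quotient_finite_of_isOpen _ hr1
  obtain ⟨N, hN, hpow⟩ := exists_pow_mat r hfin
  refine ⟨r, ⟨hr1, ?_, ?_⟩, ?_, semisimple_of_finite r hfin, ?_⟩
  · intro g q hq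
    exact hr3 g q (Eventually.of_forall fun l => (h3 l).2.1 g q hq)
  · intro v hv _
    refine ⟨fun σ hσ => ?_, fun σ hσ => ⟨fun q hq => ?_, ?_⟩⟩
    · refine hr2 σ ?_
      filter_upwards [hnorm v] with l hl
      exact ((h3 l).2.2 v hv hl).1 σ hσ
    · refine hr3 σ q ?_
      filter_upwards [hnorm v] with l hl
      exact (((h3 l).2.2 v hv hl).2 σ hσ).1 q hq
    · refine hr4 σ (D.P v) ?_
      filter_upwards [hnorm v] with l hl
      exact (((h3 l).2.2 v hv hl).2 σ hσ).2
  · have e := QuotientGroup.quotientKerEquivRange r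
    have : Finite r.range := Finite.of_equiv _ e.toEquiv
    exact Set.toFinite (r.range : Set (GL (Fin n) Ω))
  · intro σ
    obtain ⟨b, d, hbd⟩ := diag_of_pow_eq_one (r σ : Matrix (Fin n) (Fin n) Ω) N hN (hpow σ)
    obtain ⟨h, hh⟩ := conj_of_basis _ b d hbd
    exact ⟨h, d, hh⟩

open Pool.Agent.Q92.DS Pool.Agent.Y800 in
/-- **From characteristic zero to almost all residue fields.** -/
theorem mod_of_parameters (D : Datum K E n) (h : HasParameters D) :
    {l : HeightOneSpectrum (𝓞 E) | ¬ HasMod D l}.Finite := by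
  classical
  have hj : Nonempty (E →+* QBar) :=
    ⟨((IsAlgClosed.lift : E →ₐ[ℚ] QBar) : E →+* QBar)⟩
  obtain ⟨j⟩ := hj
  obtain ⟨r, ⟨hr1, hr2, hr3⟩, -, -, -⟩ := h QBar j
  haveI hfin : Finite (GK K ⧸ r.ker) := Subgroup.quotient_finite_of_isOpen _ hr1
  obtain ⟨m, hm, hred⟩ := reduceG r hfin
  have hm0 : ((m : ℕ) : 𝓞 E) ≠ 0 := by exact_mod_cast hm.ne'
  refine (finite_mem _ hm0).subset fun l hl => ?_
  by_contra hml
  apply hl
  haveI : l.asIdeal.IsMaximal := l.isMaximal
  letI : Field (𝓞 E ⧸ l.asIdeal) := Ideal.Quotient.field l.asIdeal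
  let k := AlgebraicClosure (𝓞 E ⧸ l.asIdeal)
  let φ : 𝓞 E →+* k := (algebraMap (𝓞 E ⧸ l.asIdeal) k).comp (Ideal.Quotient.mk l.asIdeal)
  have hφ : RingHom.ker φ = l.asIdeal := by
    ext x
    rw [RingHom.mem_ker]
    show algebraMap (𝓞 E ⧸ l.asIdeal) k (Ideal.Quotient.mk l.asIdeal x) = 0 ↔ _
    rw [map_eq_zero, Ideal.Quotient.eq_zero_iff_mem]
  obtain ⟨ψ, hψ⟩ := extend j φ
  have hψm : ψ (m : ZBar) ≠ 0 := by
    intro h0
    apply hml
    have h1 : φ ((m : ℕ) : 𝓞 E) = 0 := by rw [map_natCast]; rw [map_natCast] at h0; exact h0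
    rw [← RingHom.mem_ker, hφ] at h1
    exact h1
  obtain ⟨ρ, hρ1, hρ2, hρ3⟩ := hred k inferInstance ψ hψm
  -- transfer of equations
  have hev : ∀ (g : GK K) (q : MvPolynomial (Fin n × Fin n) (𝓞 E)),
      ev (j.comp (algebraMap (𝓞 E) E)) (r g : Matrix (Fin n) (Fin n) QBar) q = 0 →
      ev φ (ρ g : Matrix (Fin n) (Fin n) k) q = 0 := by
    intro g q hq
    have e1 : (j.comp (algebraMap (𝓞 E) E)) = (algebraMap ZBar QBar).comp (RingOfIntegers.mapRingHom j) :=
      RingHom.ext fun x => rfl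
    have e2 : φ = ψ.comp (RingOfIntegers.mapRingHom j) := RingHom.ext fun x => (hψ x).symm
    have h1 := hρ3 g (MvPolynomial.map (RingOfIntegers.mapRingHom j) q) (by
      unfold ev
      rw [MvPolynomial.eval₂_map, ← e1]
      exact hq)
    unfold ev at h1 ⊢
    rw [MvPolynomial.eval₂_map, ← e2] at h1
    exact h1
  refine ⟨k, inferInstance, φ, ρ, hφ, hρ2, Subgroup.isOpen_mono hρ1 hr1, fun g q hq => ?_, fun v hv _ => ?_⟩
  · exact hev g q (hr2 g q hq)
  · obtain ⟨h4, h5⟩ := hr3 v hv (fun h => h)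
    refine ⟨fun σ hσ => hρ1 (h4 σ hσ), fun σ hσ => ⟨fun q hq => hev σ q ((h5 σ hσ).1 q hq), ?_⟩⟩
    refine charpoly_of_ev (I := ℕ) (k := fun _ => QBar) (fun _ : ℕ => (j.comp (algebraMap (𝓞 E) E)))
      (fun _ => r) φ ρ (fun g q hq => ?_) σ (D.P v) (Eventually.of_forall fun _ => (h5 σ hσ).2)
    obtain ⟨_, h0⟩ := hq.exists
    exact hev g q h0

/-- **Parameters with finite image exist in characteristic zero if and only if they exist modulo infinitely
many primes, if and only if they exist modulo almost all primes.** -/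
theorem result (hn : 0 < n) (D : Datum K E n) (h : FewTraces D ∨ MeanSquare D) :
    List.TFAE [
      HasParameters D,
      {l : HeightOneSpectrum (𝓞 E) | HasMod D l}.Infinite,
      {l : HeightOneSpectrum (𝓞 E) | ¬ HasMod D l}.Finite] := by
  have hfew : FewTraces D := h.elim id (few_of_meanSquare hn D)
  tfae_have 1 → 3 := mod_of_parameters D
  tfae_have 3 → 2 := by
    intro hfin
    have hinf : (Set.univ : Set (HeightOneSpectrum (𝓞 E))).Infinite := by
      intro hf
      obtain ⟨v, hv, -⟩ := Pool.Agent.Q92.DS.FrK_dense (K := E) ⊤ inferInstance isOpen_univ hf.toFinset 1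
      exact hv (by simp)
    have h1 : Set.univ \ {l : HeightOneSpectrum (𝓞 E) | ¬ HasMod D l} ⊆
        {l : HeightOneSpectrum (𝓞 E) | HasMod D l} := by
      rintro l ⟨_, h2⟩
      by_contra h3
      exact h2 h3
    exact (hinf.diff hfin).mono h1
  tfae_have 2 → 1 := parameters_of_mod hn D hfew
  tfae_finish

end Pool.Agent.Results.MP_666dc0_nt.FiniteImageLGroups
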