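import Pool.Agent.Q92.DS.OneK

/-!
# One residual parameter suffices

Realize an L-group by a faithful representation in `GL_n`: the coset of `g ∈ Γ_K` in (a finite form of) the
L-group is the closed subset of `GL_n` given by a set of polynomial equations over the integers of a number
field `E`, and a Satake class is given by further such equations (the values of the functions invariant under
conjugation) and by its characteristic polynomial. Fix `n`, `E`, a finite set `LL` of possible cosets and a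
finite set `SS` of possible Satake classes (for tempered Satake classes of Artin type with a given field of
rationality there are only finitely many possibilities).

There is a finite set `B` of primes of `E` such that for ALL number fields `K`, all L-groups over `K` with
cosets in `LL`, all finite sets `Σ` of places of `K`, all Satake data `s_v ∈ SS`, `v ∉ Σ`, and all primes
`λ ∉ B` of `E`: there is a semisimple homomorphism modulo `λ` which corresponds to the `s_v` if and only if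
over every algebraically closed field to which `E` is mapped (for instance the algebraic closures of all
`ℚ_ℓ`) there is an admissible homomorphism with finite image which corresponds to the `s_v` for all
`v ∉ Σ` prime to the residue characteristic of `λ`. If different classes in `SS` are disjoint, two residual
homomorphisms for primes of different residue characteristics outside `B` give such homomorphisms which
correspond to the `s_v` for all `v ∉ Σ`.
-/

set_option autoImplicit false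
set_option linter.all false

namespace Pool.Agent.Results.MP_666dc0_nt.OneResidualPlace

open Polynomial Filter NumberField IsDedekindDomain
open Pool.Agent.W401.Cheb (GK IsFrob IsInert)

/-- The matrix `M` over `k` satisfies the polynomial equations `Q` (polynomials in the entries, with
coefficients in the integers of `E`, which are mapped to `k` by `φ`). -/
def Solves {E : Type} [Field E] [NumberField E] {k : Type*} [CommRing k] {n : ℕ} (φ : 𝓞 E →+* k)
    (Q : Set (MvPolynomial (Fin n × Fin n) (𝓞 E))) (M : Matrix (Fin n) (Fin n) k) : Prop :=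
  ∀ q ∈ Q, MvPolynomial.eval₂ φ (fun ab => M ab.1 ab.2) q = 0

/-- An L-group, realized in `GL_n` by equations over the integers of `E`, and Satake classes. -/
structure Datum (K E : Type) [Field K] [NumberField K] [Field E] [NumberField E] (n : ℕ) where
  /-- the equations of the coset of `g` in the L-group -/
  LG : GK K → Set (MvPolynomial (Fin n × Fin n) (𝓞 E))
  /-- the bad places `Σ` -/
  bad : Finset (HeightOneSpectrum (𝓞 K))
  /-- the Satake class `s_v`: equations, and the characteristic polynomial -/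
  sat : HeightOneSpectrum (𝓞 K) → Set (MvPolynomial (Fin n × Fin n) (𝓞 E)) × (𝓞 E)[X]

variable {K E : Type} [Field K] [NumberField K] [Field E] [NumberField E] {n : ℕ}

/-- The matrix `M` lies in the class `s`, a set of equations and a characteristic polynomial. -/
def InClass {k : Type*} [Field k] (φ : 𝓞 E →+* k)
    (s : Set (MvPolynomial (Fin n × Fin n) (𝓞 E)) × (𝓞 E)[X]) (M : Matrix (Fin n) (Fin n) k) : Prop :=
  Solves φ s.1 M ∧ M.charpoly = s.2.map φ

/-- `ρ` is a homomorphism to the L-group over `k`, commuting with the projections to the Galois group and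
with open kernel, which for all `v ∉ Σ` outside the set `X` is unramified at `v` and maps all Frobenius
elements at `v` into the class `s_v` (up to semisimplification). -/
def IsParameter (D : Datum K E n) {k : Type*} [Field k] (φ : 𝓞 E →+* k)
    (X : Set (HeightOneSpectrum (𝓞 K))) (ρ : GK K →* GL (Fin n) k) : Prop :=
  IsOpen (ρ.ker : Set (GK K)) ∧
  (∀ g, Solves φ (D.LG g) (ρ g : Matrix (Fin n) (Fin n) k)) ∧
  ∀ v, v ∉ D.bad → v ∉ X → (∀ σ, IsInert v σ → ρ σ = 1) ∧
    ∀ σ, IsFrob v σ → InClass φ (D.sat v) (ρ σ : Matrix (Fin n) (Fin n) k)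

/-- `ρ` is semisimple: every stable subspace has a stable complement. -/
def IsSemisimple {k : Type*} [Field k] (ρ : GK K →* GL (Fin n) k) : Prop :=
  ∀ W : Submodule k (Fin n → k), (∀ g, ∀ w ∈ W, (ρ g : Matrix (Fin n) (Fin n) k).mulVec w ∈ W) →
    ∃ W' : Submodule k (Fin n → k), (∀ g, ∀ w ∈ W', (ρ g : Matrix (Fin n) (Fin n) k).mulVec w ∈ W') ∧
      IsCompl W W'

/-- The places of `K` which are not prime to the residue characteristic of the prime `l` of `E`. -/
def above (K : Type) [Field K] [NumberField K] (l : HeightOneSpectrum (𝓞 E)) :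
    Set (HeightOneSpectrum (𝓞 K)) :=
  {v | ((Ideal.absNorm v.asIdeal : ℕ) : 𝓞 E) ∈ l.asIdeal}

/-- There is a parameter modulo `l`: over some extension of the residue field of `l`, a semisimple
representation with values in the L-group which corresponds to the Satake classes at all `v ∉ Σ` prime to
the residue characteristic of `l`. -/
def HasMod (D : Datum K E n) (l : HeightOneSpectrum (𝓞 E)) : Prop :=
  ∃ (k : Type) (_ : Field k) (φ : 𝓞 E →+* k) (ρ : GK K →* GL (Fin n) k),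
    RingHom.ker φ = l.asIdeal ∧ IsSemisimple ρ ∧ IsParameter D φ (above K l) ρ

/-- Over every algebraically closed field `Ω` to which `E` is mapped there is a parameter with finite image
and diagonalizable images of all elements, which corresponds to the Satake classes at all `v ∉ Σ` outside
the set `X`. -/
def HasParameters (D : Datum K E n) (X : Set (HeightOneSpectrum (𝓞 K))) : Prop :=
  ∀ (Ω : Type) [Field Ω] [IsAlgClosed Ω] (ι : E →+* Ω), ∃ r : GK K →* GL (Fin n) Ω,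
    IsParameter D (ι.comp (algebraMap (𝓞 E) E)) X r ∧ (Set.range r).Finite ∧ IsSemisimple r ∧
    ∀ σ, ∃ (h : GL (Fin n) Ω) (d : Fin n → Ω), (r σ : Matrix (Fin n) (Fin n) Ω) =
      (h : Matrix (Fin n) (Fin n) Ω) * Matrix.diagonal d * ((h⁻¹ : GL (Fin n) Ω) : Matrix (Fin n) (Fin n) Ω)

/-- The cosets of the L-group belong to `LL`, and the Satake classes outside `Σ` belong to `SS`. -/
def OfType (LL : Finset (Set (MvPolynomial (Fin n × Fin n) (𝓞 E))))
    (SS : Finset (Set (MvPolynomial (Fin n × Fin n) (𝓞 E)) × (𝓞 E)[X])) (D : Datum K E n) : Prop :=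
  (∀ g, D.LG g ∈ LL) ∧ ∀ v, v ∉ D.bad → D.sat v ∈ SS

/-- Different classes in `SS` are disjoint, over all algebraically closed fields to which `E` is mapped. -/
def Separated (SS : Finset (Set (MvPolynomial (Fin n × Fin n) (𝓞 E)) × (𝓞 E)[X])) : Prop :=
  ∀ s ∈ SS, ∀ s' ∈ SS, ∀ (Ω : Type) [Field Ω] [IsAlgClosed Ω] (ι : E →+* Ω)
    (M : Matrix (Fin n) (Fin n) Ω), InClass (ι.comp (algebraMap (𝓞 E) E)) s M →
      InClass (ι.comp (algebraMap (𝓞 E) E)) s' M → s = s'

theorem norm_pow (K : Type) [Field K] [NumberField K] (v : HeightOneSpectrum (𝓞 K)) :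
    ∃ (p m : ℕ), p.Prime ∧ 0 < m ∧ Ideal.absNorm v.asIdeal = p ^ m := by
  haveI : v.asIdeal.IsMaximal := v.isMaximal
  letI := Ideal.Quotient.field v.asIdeal
  haveI : Finite (𝓞 K ⧸ v.asIdeal) := Ideal.finiteQuotientOfFreeOfNeBot _ v.ne_bot
  cases nonempty_fintype (𝓞 K ⧸ v.asIdeal)
  obtain ⟨p, hc⟩ := CharP.exists (𝓞 K ⧸ v.asIdeal)
  obtain ⟨m, hp, hk⟩ := FiniteField.card (𝓞 K ⧸ v.asIdeal) p
  refine ⟨p, m, hp, m.pos, ?_⟩
  rw [Ideal.absNorm_apply, Submodule.cardQuot_apply, ← hk]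
  exact Nat.card_eq_fintype_card

theorem dvd_norm (v : HeightOneSpectrum (𝓞 K)) (l : HeightOneSpectrum (𝓞 E)) (hv : v ∈ above K l) :
    ∃ p : ℕ, p.Prime ∧ p ∣ Ideal.absNorm v.asIdeal ∧ p ∣ Ideal.absNorm l.asIdeal := by
  obtain ⟨p, m, hp, hm, hN⟩ := norm_pow K v
  refine ⟨p, hp, by rw [hN]; exact dvd_pow_self p hm.ne', ?_⟩
  by_contra hnd
  have hcop : Nat.Coprime (Ideal.absNorm l.asIdeal) (Ideal.absNorm v.asIdeal) := by
    rw [hN]
    exact (Nat.Coprime.pow_left _ ((Nat.Prime.coprime_iff_not_dvd hp).2 hnd)).symm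
  obtain ⟨x, y, hxy⟩ := Nat.isCoprime_iff_coprime.2 hcop
  apply l.isPrime.ne_top
  rw [Ideal.eq_top_iff_one]
  have h2 := congrArg (fun z : ℤ => (z : 𝓞 E)) hxy
  simp only [Int.cast_add, Int.cast_mul, Int.cast_natCast, Int.cast_one] at h2
  rw [← h2]
  exact Ideal.add_mem _ (Ideal.mul_mem_left _ _ (Ideal.absNorm_mem _)) (Ideal.mul_mem_left _ _ hv)

theorem above_disjoint (l₁ l₂ : HeightOneSpectrum (𝓞 E))
    (h : (Ideal.absNorm l₁.asIdeal).Coprime (Ideal.absNorm l₂.asIdeal)) (v : HeightOneSpectrum (𝓞 K))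
    (h₁ : v ∈ above K l₁) : v ∉ above K l₂ := by
  intro h₂
  obtain ⟨p, hp, h3, h4⟩ := dvd_norm v l₁ h₁
  obtain ⟨q, hq, h5, h6⟩ := dvd_norm v l₂ h₂
  obtain ⟨r, m, hr, hm, hN⟩ := norm_pow K v
  rw [hN] at h3 h5
  have e1 := (Nat.prime_dvd_prime_iff_eq hp hr).1 (hp.dvd_of_dvd_pow h3)
  have e2 := (Nat.prime_dvd_prime_iff_eq hq hr).1 (hq.dvd_of_dvd_pow h5)
  subst e1
  subst e2
  exact Nat.not_coprime_of_dvd_of_dvd hp.one_lt h4 h6 h

theorem above_finite (l : HeightOneSpectrum (𝓞 E)) : (above K l).Finite := by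
  haveI : l.asIdeal.IsMaximal := l.isMaximal
  letI : Field (𝓞 E ⧸ l.asIdeal) := Ideal.Quotient.field l.asIdeal
  have h := Pool.Agent.Q92.DS.finite_above (K := K) l (Ideal.Quotient.mk l.asIdeal) (Ideal.mk_ker)
  refine h.subset fun v hv => ?_
  exact Ideal.Quotient.eq_zero_iff_mem.2 hv

theorem isFrob_conj (v : HeightOneSpectrum (𝓞 K)) (σ τ : GK K) (h : IsFrob v σ) :
    IsFrob v (τ * σ * τ⁻¹) := by
  obtain ⟨Q, h1, h2, h3⟩ := h
  refine ⟨Pool.Agent.W401.Frob.tr τ Q, Pool.Agent.W401.Frob.tr_max τ Q h1, ?_,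
    Pool.Agent.W401.Frob.frob_conj v σ τ Q h3⟩
  rw [Pool.Agent.W401.Frob.tr_comap]
  exact h2

open Pool.Agent.Q92.DS Pool.Agent.Y800 in
/-- the additional properties -/
theorem extra {Ω : Type} [Field Ω] [IsAlgClosed Ω] [CharZero Ω] (r : GK K →* GL (Fin n) Ω)
    (hr : IsOpen (r.ker : Set (GK K))) : (Set.range r).Finite ∧ IsSemisimple r ∧
    ∀ σ, ∃ (h : GL (Fin n) Ω) (d : Fin n → Ω), (r σ : Matrix (Fin n) (Fin n) Ω) =
      (h : Matrix (Fin n) (Fin n) Ω) * Matrix.diagonal d *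
        ((h⁻¹ : GL (Fin n) Ω) : Matrix (Fin n) (Fin n) Ω) := by
  haveI hfin : Finite (GK K ⧸ r.ker) := Subgroup.quotient_finite_of_isOpen _ hr
  obtain ⟨N, hN, hpow⟩ := exists_pow_mat r hfin
  refine ⟨?_, semisimple_of_finite r hfin, ?_⟩
  · have e := QuotientGroup.quotientKerEquivRange r
    have : Finite r.range := Finite.of_equiv _ e.toEquiv
    exact Set.toFinite (r.range : Set (GL (Fin n) Ω))
  · intro σ
    obtain ⟨b, d, hbd⟩ := diag_of_pow_eq_one (r σ : Matrix (Fin n) (Fin n) Ω) N hN (hpow σ)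
    obtain ⟨h, hh⟩ := conj_of_basis _ b d hbd
    exact ⟨h, d, hh⟩

open Pool.Agent.Q92.DS Pool.Agent.Y800 in
/-- from two parameters -/
theorem param_of_two {SS : Finset (Set (MvPolynomial (Fin n × Fin n) (𝓞 E)) × (𝓞 E)[X])}
    (hsep : Separated SS) (D : Datum K E n) (hD : ∀ v, v ∉ D.bad → D.sat v ∈ SS)
    {Ω : Type} [Field Ω] [IsAlgClosed Ω] (ι : E →+* Ω) (X₁ X₂ : Set (HeightOneSpectrum (𝓞 K)))
    (hX₁ : X₁.Finite) (hX₂ : X₂.Finite) (hX : ∀ v ∈ X₁, v ∉ X₂) (r₁ r₂ : GK K →* GL (Fin n) Ω)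
    (h₁ : IsParameter D (ι.comp (algebraMap (𝓞 E) E)) X₁ r₁)
    (h₂ : IsParameter D (ι.comp (algebraMap (𝓞 E) E)) X₂ r₂) :
    IsParameter D (ι.comp (algebraMap (𝓞 E) E)) ∅ r₁ := by
  classical
  haveI : CharZero Ω := charZero_of_injective_ringHom ι.injective
  haveI hfin : Finite (GK K ⧸ r₁.ker) := Subgroup.quotient_finite_of_isOpen _ h₁.1
  obtain ⟨N, hN, hpow⟩ := exists_pow_mat r₁ hfin
  have key : ∀ g : GK K, ∃ v, v ∉ D.bad ∧ v ∉ X₁ ∧ v ∉ X₂ ∧ ∃ σ, IsFrob v σ ∧ r₁ g = r₁ σ ∧ r₂ g = r₂ σ := by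
    intro g
    obtain ⟨v, hv, σ, hσ, τ, hτ⟩ := FrK_dense (r₁.ker ⊓ r₂.ker) inferInstance
      (by rw [Subgroup.coe_inf]; exact h₁.1.inter h₂.1) (D.bad ∪ hX₁.toFinset ∪ hX₂.toFinset) g
    rw [Finset.notMem_union, Finset.notMem_union, Set.Finite.mem_toFinset, Set.Finite.mem_toFinset] at hv
    refine ⟨v, hv.1.1, hv.1.2, hv.2, τ * σ * τ⁻¹, isFrob_conj v σ τ hσ, ?_, ?_⟩
    · have : r₁ (τ * σ * τ⁻¹ * g⁻¹) = 1 := hτ.1
      rw [map_mul, map_inv, mul_inv_eq_one] at this
      exact this.symm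
    · have : r₂ (τ * σ * τ⁻¹ * g⁻¹) = 1 := hτ.2
      rw [map_mul, map_inv, mul_inv_eq_one] at this
      exact this.symm
  refine ⟨h₁.1, h₁.2.1, fun v hv _ => ?_⟩
  by_cases hv1 : v ∈ X₁
  · have hv2 := hX v hv1
    obtain ⟨h3, h4⟩ := h₂.2.2 v hv hv2
    refine ⟨fun τ hτ => ?_, fun σ hσ => ?_⟩
    · obtain ⟨v', a1, a2, a3, σ', a4, a5, a6⟩ := key τ
      have h5 := ((h₂.2.2 v' a1 a3).2 σ' a4).2
      rw [← a6, h3 τ hτ, Units.val_one, Matrix.charpoly_one, Fintype.card_fin] at h5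
      have h6 := ((h₁.2.2 v' a1 a2).2 σ' a4).2
      rw [← a5, ← h5] at h6
      apply Units.ext
      refine eq_one (r₁ τ : Matrix (Fin n) (Fin n) Ω) N (hpow τ) (by exact_mod_cast hN.ne') ?_
      rw [h6]
    · obtain ⟨v', a1, a2, a3, σ', a4, a5, a6⟩ := key σ
      have h5 := (h₂.2.2 v' a1 a3).2 σ' a4
      rw [← a6] at h5
      have h6 := hsep _ (hD v hv) _ (hD v' a1) Ω ι _ (h4 σ hσ) h5
      rw [a5, h6]
      exact (h₁.2.2 v' a1 a2).2 σ' a4
  · exact h₁.2.2 v hv hv1

open Pool.Agent.Q92.DS Pool.Agent.Y800 in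
/-- **One residual parameter suffices.** -/
theorem result (hn : 0 < n) (LL : Finset (Set (MvPolynomial (Fin n × Fin n) (𝓞 E))))
    (SS : Finset (Set (MvPolynomial (Fin n × Fin n) (𝓞 E)) × (𝓞 E)[X])) :
    ∃ B : Finset (HeightOneSpectrum (𝓞 E)), ∀ (K : Type) [Field K] [NumberField K] (D : Datum K E n),
      OfType LL SS D →
      (∀ l, l ∉ B → (HasMod D l ↔ HasParameters D (above K l))) ∧
      (Separated SS → List.TFAE [
        HasParameters D ∅,
        ∀ l, l ∉ B → HasMod D l,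
        ∃ l₁ l₂ : HeightOneSpectrum (𝓞 E), l₁ ∉ B ∧ l₂ ∉ B ∧
          (Ideal.absNorm l₁.asIdeal).Coprime (Ideal.absNorm l₂.asIdeal) ∧ HasMod D l₁ ∧ HasMod D l₂]) := by
  classical
  obtain ⟨B₁, hB₁, hof⟩ := of_oneK hn LL SS
  obtain ⟨j⟩ : Nonempty (E →+* QBar) := ⟨((IsAlgClosed.lift : E →ₐ[ℚ] QBar) : E →+* QBar)⟩
  obtain ⟨m, hm, hto⟩ := to_oneK hn LL SS j
  have hm0 : ((m : ℕ) : 𝓞 E) ≠ 0 := by exact_mod_cast hm.ne'
  have hB₂ := finite_mem (K := E) _ hm0
  refine ⟨hB₁.toFinset ∪ hB₂.toFinset, ?_⟩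
  intro K _ _ D hD
  -- from a residual parameter
  have key1 : ∀ l, l ∉ hB₁.toFinset ∪ hB₂.toFinset → HasMod D l → HasParameters D (above K l) := by
    rintro l hl ⟨k, _, φ, ρ, h1, h2, h3, h4, h5⟩ Ω _ _ ι
    rw [Finset.notMem_union, Set.Finite.mem_toFinset, Set.Finite.mem_toFinset] at hl
    haveI : CharZero Ω := charZero_of_injective_ringHom ι.injective
    have hab := above_finite (K := K) l
    have hmem : ∀ v, v ∉ D.bad ∪ hab.toFinset ↔ v ∉ D.bad ∧ v ∉ above K l := by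
      intro v
      rw [Finset.notMem_union, Set.Finite.mem_toFinset]
    obtain ⟨r, hr1, hr2, hr3⟩ := hof K D.LG hD.1 (D.bad ∪ hab.toFinset) D.sat
      (fun v hv => hD.2 v ((hmem v).1 hv).1) l hl.1 k φ h1 ρ h3 h2 h4
      (fun v hv σ hσ => (h5 v ((hmem v).1 hv).1 ((hmem v).1 hv).2).2 σ hσ)
      (ι.comp (algebraMap (𝓞 E) E)) (ι.injective.comp RingOfIntegers.coe_injective)
    have hro : IsOpen (r.ker : Set (GK K)) := Subgroup.isOpen_mono hr1 h3
    refine ⟨r, ⟨hro, hr2, fun v hv hvl => ⟨fun τ hτ => ?_, fun σ hσ => ?_⟩⟩, extra r hro⟩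
    · exact hr1 ((h5 v hv hvl).1 τ hτ)
    · exact hr3 v ((hmem v).2 ⟨hv, hvl⟩) σ hσ
  -- to a residual parameter
  have key2 : ∀ l, l ∉ hB₁.toFinset ∪ hB₂.toFinset → HasParameters D (above K l) → HasMod D l := by
    intro l hl h
    rw [Finset.notMem_union, Set.Finite.mem_toFinset, Set.Finite.mem_toFinset] at hl
    obtain ⟨r, ⟨hr1, hr2, hr3⟩, -, -, -⟩ := h QBar j
    have hab := above_finite (K := K) l
    have hmem : ∀ v, v ∉ D.bad ∪ hab.toFinset ↔ v ∉ D.bad ∧ v ∉ above K l := by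
      intro v
      rw [Finset.notMem_union, Set.Finite.mem_toFinset]
    haveI : l.asIdeal.IsMaximal := l.isMaximal
    letI : Field (𝓞 E ⧸ l.asIdeal) := Ideal.Quotient.field l.asIdeal
    let k := AlgebraicClosure (𝓞 E ⧸ l.asIdeal)
    let φ : 𝓞 E →+* k := (algebraMap (𝓞 E ⧸ l.asIdeal) k).comp (Ideal.Quotient.mk l.asIdeal)
    have hφ : RingHom.ker φ = l.asIdeal := by
      ext x
      rw [RingHom.mem_ker]
      show algebraMap (𝓞 E ⧸ l.asIdeal) k (Ideal.Quotient.mk l.asIdeal x) = 0 ↔ _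
      rw [map_eq_zero, Ideal.Quotient.eq_zero_iff_mem]
    obtain ⟨ψ, hψ⟩ := extend j φ
    have hψφ : ψ.comp (RingOfIntegers.mapRingHom j) = φ := RingHom.ext hψ
    have hψm : ψ (m : ZBar) ≠ 0 := by
      intro h0
      apply hl.2
      have h1 : φ ((m : ℕ) : 𝓞 E) = 0 := by rw [map_natCast]; rw [map_natCast] at h0; exact h0
      rw [← RingHom.mem_ker, hφ] at h1
      exact h1
    obtain ⟨ρ, h1, h2, h3, h4⟩ := hto K D.LG hD.1 (D.bad ∪ hab.toFinset) D.sat
      (fun v hv => hD.2 v ((hmem v).1 hv).1) r hr1 hr2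
      (fun v hv σ hσ => (hr3 v ((hmem v).1 hv).1 ((hmem v).1 hv).2).2 σ hσ) k ψ hψm
    rw [hψφ] at h3 h4
    refine ⟨k, inferInstance, φ, ρ, hφ, h2, Subgroup.isOpen_mono h1 hr1, h3, fun v hv hvl => ⟨?_, ?_⟩⟩
    · intro τ hτ
      exact h1 ((hr3 v hv hvl).1 τ hτ)
    · intro σ hσ
      exact h4 v ((hmem v).2 ⟨hv, hvl⟩) σ hσ
  refine ⟨fun l hl => ⟨key1 l hl, key2 l hl⟩, fun hsep => ?_⟩
  tfae_have 1 → 2 := by
    intro h l hl
    refine key2 l hl fun Ω _ _ ι => ?_
    obtain ⟨r, ⟨h1, h2, h3⟩, h4⟩ := h Ω ι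
    exact ⟨r, ⟨h1, h2, fun v hv _ => h3 v hv (Set.notMem_empty v)⟩, h4⟩
  tfae_have 2 → 3 := by
    intro h
    have hinf : (Set.univ : Set (HeightOneSpectrum (𝓞 E))).Infinite := by
      intro hf
      obtain ⟨v, hv, -⟩ := FrK_dense (K := E) ⊤ inferInstance isOpen_univ hf.toFinset 1
      exact hv (by simp)
    obtain ⟨l₁, -, hl₁⟩ := hinf.exists_notMem_finset (hB₁.toFinset ∪ hB₂.toFinset)
    have hn1 : ((Ideal.absNorm l₁.asIdeal : ℕ) : 𝓞 E) ≠ 0 := by
      have : Ideal.absNorm l₁.asIdeal ≠ 0 := by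
        rw [Ne, Ideal.absNorm_eq_zero_iff]; exact l₁.ne_bot
      exact_mod_cast this
    have hfin := finite_mem (K := E) _ hn1
    obtain ⟨l₂, -, hl₂⟩ := hinf.exists_notMem_finset (hB₁.toFinset ∪ hB₂.toFinset ∪ hfin.toFinset)
    rw [Finset.notMem_union, Set.Finite.mem_toFinset] at hl₂
    refine ⟨l₁, l₂, hl₁, hl₂.1, ?_, h l₁ hl₁, h l₂ hl₂.1⟩
    by_contra hcop
    apply hl₂.2
    show ((Ideal.absNorm l₁.asIdeal : ℕ) : 𝓞 E) ∈ l₂.asIdeal
    obtain ⟨p, a, hp, ha, hpa⟩ := norm_pow E l₁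
    obtain ⟨q, b, hq, hb, hqb⟩ := norm_pow E l₂
    have hpq : p = q := by
      by_contra hne
      apply hcop
      rw [hpa, hqb]
      exact Nat.Coprime.pow _ _ ((Nat.coprime_primes hp hq).2 hne)
    have h1 : ((Ideal.absNorm l₂.asIdeal : ℕ) : 𝓞 E) ∈ l₂.asIdeal := Ideal.absNorm_mem _
    rw [hqb, Nat.cast_pow] at h1
    have h2 := l₂.isPrime.mem_of_pow_mem _ h1
    rw [hpa, hpq, Nat.cast_pow]
    exact Ideal.pow_mem_of_mem _ h2 _ ha
  tfae_have 3 → 1 := by
    rintro ⟨l₁, l₂, a1, a2, a3, a4, a5⟩ Ω _ _ ι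
    haveI : CharZero Ω := charZero_of_injective_ringHom ι.injective
    obtain ⟨r₁, h1, -⟩ := key1 l₁ a1 a4 Ω ι
    obtain ⟨r₂, h2, -⟩ := key1 l₂ a2 a5 Ω ι
    have h3 := param_of_two hsep D hD.2 ι (above K l₁) (above K l₂) (above_finite l₁) (above_finite l₂)
      (fun v hv => above_disjoint l₁ l₂ a3 v hv) r₁ r₂ h1 h2
    exact ⟨r₁, h3, extra r₁ h3.1⟩
  tfae_finish

end Pool.Agent.Results.MP_666dc0_nt.OneResidualPlace
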