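import Pool.Agent.Q65.TD.Pow2

set_option autoImplicit false

namespace Pool.Agent.Results.MP_666dc0_nt.PowersAndOneProduct

open Matrix NumberField IsDedekindDomain
open Pool.Agent.W401.Cheb (GK IsFrob IsInert)
open Pool.Agent.Q65.TD

/-- Let `α v`, `v ∉ S`, be the Satake parameters of `Π` on `GL n` over the number field `K`, let `σ₀` be
given with its Galois representation `ρ₀` (Satake parameters `β₀ v`), and let `a`, `a'` be coprime. Then
`Π` has a semisimple Galois representation `r` such that `ρ₀` is strongly irreducible on `ker r` if and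
only if the product `Π × σ₀` has a semisimple Galois representation and the tensor powers `Π ^ a`,
`Π ^ a'` (for instance the square and the cube) have Galois representations `R`, `R'` such that `ρ₀` is
strongly irreducible on `ker R ∩ ker R'`. -/
theorem result (K : Type) [Field K] [NumberField K] (k : Type) [Field k] [IsAlgClosed k]
    [CharZero k] [TopologicalSpace k] [IsTopologicalRing k] [T2Space k]
    (S : Set (HeightOneSpectrum (𝓞 K))) (hS : S.Finite)
    (n : ℕ) (hn : 0 < n) (α : HeightOneSpectrum (𝓞 K) → Fin n → kˣ)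
    (m₀ : ℕ) (hm₀ : 0 < m₀) (β₀ : HeightOneSpectrum (𝓞 K) → Fin m₀ → kˣ)
    (ρ₀ : GK K →* GL (Fin m₀) k) (hρ₀ : Corr S β₀ ρ₀)
    (a a' : ℕ) (ha : 0 < a) (ha' : 0 < a') (hc : a.Coprime a') :
    (∃ r : GK K →* GL (Fin n) k, Corr S α r ∧ Semisimple r ∧
      ∀ V : Subgroup (GK K), V.Normal → IsOpen (V : Set (GK K)) → AbsIrrOn ρ₀ (V ⊓ r.ker)) ↔
    (∃ (R₀ : GK K →* GL (Fin n × Fin m₀) k) (R : GK K →* GL (Fin a → Fin n) k)
      (R' : GK K →* GL (Fin a' → Fin n) k),
      Corr S (fun v p => α v p.1 * β₀ v p.2) R₀ ∧ Semisimple R₀ ∧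
      Corr S (fun v f => ∏ t, α v (f t)) R ∧ Corr S (fun v f => ∏ t, α v (f t)) R' ∧
      ∀ V : Subgroup (GK K), V.Normal → IsOpen (V : Set (GK K)) →
        AbsIrrOn ρ₀ (V ⊓ (R.ker ⊓ R'.ker))) := by
  constructor
  · rintro ⟨r, hr, hss, hirr⟩
    have htp : ∀ b : ℕ, Corr S (fun v (f : Fin b → Fin n) => ∏ t, α v (f t)) (tpHom b r) := by
      intro b
      refine ⟨tpHom_cont b hr.continuous, ?_, ?_⟩
      · intro v hv τ hτ
        show tp b (r τ) = 1
        rw [hr.unramified v hv τ hτ, tp_one]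
      · intro v hv σ hσ
        rw [← map_inv, ← tp_dg]
        have h1 := hr.frobenius v hv σ hσ
        rw [← map_inv] at h1
        exact isConj_tp b h1
    have hker : ∀ b : ℕ, r.ker ≤ (tpHom b r).ker := by
      intro b x hx
      rw [MonoidHom.mem_ker]
      show tp b (r x) = 1
      rw [r.mem_ker.1 hx, tp_one]
    have hirr₁ : AbsIrrOn ρ₀ r.ker :=
      (hirr ⊤ inferInstance isOpen_univ).mono inf_le_right
    refine ⟨krHom r ρ₀, tpHom a r, tpHom a' r, ⟨?_, ?_, ?_⟩, ?_, htp a, htp a', ?_⟩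
    · exact krHom_cont hr.continuous hρ₀.continuous
    · intro v hv τ hτ
      show kr (r τ) (ρ₀ τ) = 1
      rw [hr.unramified v hv τ hτ, hρ₀.unramified v hv τ hτ, kr_one]
    · intro v hv σ hσ
      show IsConj (kr (r σ) (ρ₀ σ))⁻¹ _
      rw [kr_inv, ← kr_dg]
      exact isConj_kr (hr.frobenius v hv σ hσ) (hρ₀.frobenius v hv σ hσ)
    · rw [ss_krHom hm₀ hirr₁.absIrr]
      exact hss
    · intro V hVn hVo
      exact (hirr V hVn hVo).mono (inf_le_inf_left _ (le_inf (hker a) (hker a')))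
  · rintro ⟨R₀, R, R', hR₀, hss, hR, hR', hirr⟩
    obtain ⟨r, hr, ⟨P, hP⟩, V, hVn, hVo, hV⟩ :=
      power_descent hS hn hm₀ hρ₀ hR₀ hss ha hc hR hR' hirr
    have hirr' : ∀ W : Subgroup (GK K), W.Normal → IsOpen (W : Set (GK K)) →
        AbsIrrOn ρ₀ (W ⊓ r.ker) := by
      intro W hWn hWo
      have h1 := hirr (W ⊓ V) inferInstance (by
        rw [Subgroup.coe_inf]
        exact hWo.inter hVo)
      refine h1.mono (le_inf (inf_le_left.trans inf_le_left) ?_)
      exact le_trans (le_inf (inf_le_left.trans inf_le_right) (inf_le_right.trans inf_le_left)) hV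
    refine ⟨r, hr, ?_, hirr'⟩
    have h7 : Semisimple (krHom r ρ₀) := ss_conj P hP hss
    have hirr₁ : AbsIrrOn ρ₀ r.ker :=
      (hirr' ⊤ inferInstance isOpen_univ).mono inf_le_right
    rw [ss_krHom hm₀ hirr₁.absIrr] at h7
    exact h7

end Pool.Agent.Results.MP_666dc0_nt.PowersAndOneProduct
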