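import Pool.Agent.Q65.TD.Gal
import Pool.Agent.Q65.TD.SS

set_option autoImplicit false

namespace Pool.Agent.Results.MP_666dc0_nt.TensorDescent

open Matrix NumberField IsDedekindDomain
open Pool.Agent.W401.Cheb (GK IsFrob IsInert)
open Pool.Agent.Q65.TD

/-- Let `α v`, `v ∉ S`, be the Satake parameters of `Π` on `GL n` over the number field `K`. Let `σ₀` and
`σ s`, `s : ι`, be given with their Galois representations `ρ₀` and `ρ s` (Satake parameters `β₀ v` and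
`β s v`), such that for all `v ∉ S` and `1 ≤ j ≤ n` some of the sums of the `j`-th powers of the entries
of `β₀ v` and `β s v` is not zero. Then `Π` has a Galois representation if and only if the products
`Π × σ₀` and `Π × σ s` have Galois representations (under the independence condition). -/
theorem result (K : Type) [Field K] [NumberField K] (k : Type) [Field k] [IsAlgClosed k]
    [CharZero k] [TopologicalSpace k] [IsTopologicalRing k] [T2Space k]
    (S : Set (HeightOneSpectrum (𝓞 K))) (hS : S.Finite)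
    (n : ℕ) (α : HeightOneSpectrum (𝓞 K) → Fin n → kˣ)
    (m₀ : ℕ) (hm₀ : 0 < m₀) (β₀ : HeightOneSpectrum (𝓞 K) → Fin m₀ → kˣ)
    (ρ₀ : GK K →* GL (Fin m₀) k) (hρ₀ : Corr S β₀ ρ₀)
    (ι : Type) (m : ι → ℕ) (hm : ∀ s, 0 < m s)
    (β : ∀ s, HeightOneSpectrum (𝓞 K) → Fin (m s) → kˣ)
    (ρ : ∀ s, GK K →* GL (Fin (m s)) k) (hρ : ∀ s, Corr S (β s) (ρ s)) (s₁ : ι)
    (hrich : ∀ v ∉ S, ∀ j : ℕ, 1 ≤ j → j ≤ n →
      ∑ i, (β₀ v i : k) ^ j ≠ 0 ∨ ∃ s, ∑ i, (β s v i : k) ^ j ≠ 0) :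
    (∃ r : GK K →* GL (Fin n) k, Corr S α r ∧ Semisimple r ∧
      ∀ s, AbsIrrOn ρ₀ (r.ker ⊓ (ρ s₁).ker ⊓ (ρ s).ker)) ↔
    (∃ (R₀ : GK K →* GL (Fin n × Fin m₀) k) (R : ∀ s, GK K →* GL (Fin n × Fin (m s)) k),
      Corr S (fun v p => α v p.1 * β₀ v p.2) R₀ ∧ Semisimple R₀ ∧
      (∀ s, Corr S (fun v p => α v p.1 * β s v p.2) (R s)) ∧
      ∀ s, AbsIrrOn ρ₀ ((R s₁).ker ⊓ (ρ s₁).ker ⊓ ((R s).ker ⊓ (ρ s).ker))) := by
  constructor
  · rintro ⟨r, hr, hss, hirr⟩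
    have hcorr : ∀ (m : ℕ) (β : HeightOneSpectrum (𝓞 K) → Fin m → kˣ) (ρ : GK K →* GL (Fin m) k),
        Corr S β ρ → Corr S (fun v p => α v p.1 * β v p.2) (krHom r ρ) := by
      intro m β ρ hρ
      refine ⟨?_, ?_, ?_⟩
      · exact krHom_cont hr.continuous hρ.continuous
      · intro v hv τ hτ
        show kr (r τ) (ρ τ) = 1
        rw [hr.unramified v hv τ hτ, hρ.unramified v hv τ hτ, kr_one]
      · intro v hv σ hσ
        show IsConj (kr (r σ) (ρ σ))⁻¹ _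
        rw [kr_inv, ← kr_dg]
        exact isConj_kr (hr.frobenius v hv σ hσ) (hρ.frobenius v hv σ hσ)
    have hker : ∀ s, r.ker ⊓ (ρ s).ker ≤ (krHom r (ρ s)).ker := by
      rintro s x ⟨h1, h2⟩
      rw [MonoidHom.mem_ker]
      show kr (r x) (ρ s x) = 1
      rw [r.mem_ker.1 h1, (ρ s).mem_ker.1 h2, kr_one]
    refine ⟨krHom r ρ₀, fun s => krHom r (ρ s), hcorr _ _ _ hρ₀, ?_, fun s => hcorr _ _ _ (hρ s),
      fun s => (hirr s).mono ?_⟩
    · rw [ss_krHom hm₀ ((hirr s₁).mono (inf_le_left.trans inf_le_left)).absIrr]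
      exact hss
    · refine le_inf (le_inf ?_ ?_) (le_inf ?_ ?_)
      · exact inf_le_left.trans (hker s₁)
      · exact inf_le_left.trans inf_le_right
      · exact (le_inf (inf_le_left.trans inf_le_left) inf_le_right).trans (hker s)
      · exact inf_le_right
  · rintro ⟨R₀, R, hR₀, hss, hR, hirr⟩
    obtain ⟨r, h1, h2, ⟨P, h3⟩, -, h5, h6⟩ := galois_descent hS hm₀
      (fun j hj _ => Nat.cast_ne_zero.2 (by omega)) hρ₀ hR₀ hss hρ hR s₁
      (Nat.cast_ne_zero.2 (hm s₁).ne') hirr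
    have hle : ∀ s, (R s₁).ker ⊓ (ρ s₁).ker ⊓ ((R s).ker ⊓ (ρ s).ker) ≤
        r.ker ⊓ (ρ s₁).ker ⊓ (ρ s).ker := by
      intro s
      refine le_inf (le_inf ?_ ?_) ?_
      · exact inf_le_left.trans h5
      · exact inf_le_left.trans inf_le_right
      · exact inf_le_right.trans inf_le_right
    refine ⟨r, ⟨h1, h2, fun v hv σ hσ => h6 v hv (hrich v hv) σ hσ⟩, ?_, fun s =>
      (hirr s).mono (hle s)⟩
    have h7 : Semisimple (krHom r ρ₀) := ss_conj P h3 hss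
    rw [ss_krHom hm₀ (((hirr s₁).mono (hle s₁)).mono (inf_le_left.trans inf_le_left)).absIrr] at h7
    exact h7

end Pool.Agent.Results.MP_666dc0_nt.TensorDescent
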